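import Pool.Agent.Q82.JordanSg

/-!
# MP_8cea72_an : a distributionally chaotic semigroup with a dense set of null orbits which is not
`f`-distributionally chaotic for `f(t) = (1 + t)^5`
-/

namespace Pool.Agent.Results.MP_8cea72_an.FifthPower

open Filter Topology MeasureTheory
open scoped ENNReal ZeroAtInfty

noncomputable section

/-- The class `F`: increasing maps `f : [0, ∞) → [1, ∞)` with `liminf f(t)/t > 0`. -/
def InF (f : ℝ → ℝ) : Prop :=
  MonotoneOn f (Set.Ici 0) ∧ (∀ t, 0 ≤ t → 1 ≤ f t) ∧ ∃ c : ℝ, 0 < c ∧ ∀ᶠ t in atTop, c ≤ f t / t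

/-- The lower `f`-density `liminf_{t → ∞} m(A ∩ [0, f(t)]) / t`. -/
def lowerDensity (f : ℝ → ℝ) (A : Set ℝ) : ℝ≥0∞ :=
  liminf (fun t : ℝ => volume (A ∩ Set.Icc 0 (f t)) / ENNReal.ofReal t) atTop

variable {K X : Type} [RCLike K] [NormedAddCommGroup X] [NormedSpace K X]

/-- Strongly continuous semigroups `(T(t))_{t ≥ 0}` of bounded operators. -/
def IsSemigroup (T : ℝ → X →L[K] X) : Prop :=
  T 0 = 1 ∧ (∀ s t, 0 ≤ s → 0 ≤ t → T (s + t) = T s * T t) ∧
    ∀ x, ContinuousOn (fun t => T t x) (Set.Ici 0)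

/-- `f`-distributional chaos. -/
def Chaotic (T : ℝ → X →L[K] X) (f : ℝ → ℝ) : Prop :=
  ∃ S : Set X, ¬ S.Countable ∧ ∃ σ : ℝ, 0 < σ ∧ ∀ ε : ℝ, 0 < ε → ∀ x ∈ S, ∀ y ∈ S, x ≠ y →
    lowerDensity f {t | 0 ≤ t ∧ dist (T t x) (T t y) < σ} = 0 ∧
    lowerDensity f {t | 0 ≤ t ∧ ε ≤ dist (T t x) (T t y)} = 0

/-- There is a dense linear subspace of vectors whose orbits tend to `0`. -/
def HasDenseNullOrbits (T : ℝ → X →L[K] X) : Prop :=
  ∃ X0 : Submodule K X, Dense (X0 : Set X) ∧ ∀ x ∈ X0, Tendsto (fun t => T t x) atTop (𝓝 0)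

lemma dens_zero {f : ℝ → ℝ} {A : Set ℝ} (h : ∀ ε : ℝ, 0 < ε → ∃ᶠ t : ℝ in atTop,
    volume (A ∩ Set.Icc 0 (f t)) ≤ ENNReal.ofReal (ε * t)) : lowerDensity f A = 0 := by
  apply le_antisymm _ zero_le
  apply ENNReal.le_of_forall_pos_le_add
  intro ε hε _
  rw [zero_add]
  unfold lowerDensity
  apply liminf_le_of_frequently_le'
  have h1 := (h ε (by exact_mod_cast hε)).and_eventually (eventually_gt_atTop 0)
  refine h1.mono fun t ht => ?_
  obtain ⟨ht, ht0⟩ := ht
  rw [ENNReal.div_le_iff (by simpa using ht0) ENNReal.ofReal_ne_top]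
  refine ht.trans (le_of_eq ?_)
  rw [ENNReal.ofReal_mul (by positivity), ENNReal.ofReal_coe_nnreal]

open Q82.JordanSg

lemma dist_smul (r r' : ℝ) (t : ℝ) :
    dist (T K t ((r : K) • z K)) (T K t ((r' : K) • z K)) = |r - r'| * ‖T K t (z K)‖ := by
  have e : (r : K) • z K - (r' : K) • z K = ((r - r' : ℝ) : K) • z K := by
    rw [RCLike.ofReal_sub]
    exact (sub_smul _ _ _).symm
  rw [dist_eq_norm, ← map_sub, e, map_smul, norm_smul, RCLike.norm_ofReal]

lemma chaotic_one : Chaotic (T K) (fun t => 1 + t) := by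
  refine ⟨Set.range (fun r : ℝ => (r : K) • z K), ?_, 1, one_pos, ?_⟩
  · intro hc
    have hinj : Function.Injective (fun r : ℝ => (r : K) • z K) := by
      intro r r' h
      have h1 : ((r : K) • z K) 0 = ((r' : K) • z K) 0 := by
        have : (fun r : ℝ => (r : K) • z K) r = (fun r : ℝ => (r : K) • z K) r' := h
        simp only at this
        rw [this]
      have h2 : ((r : K) • ((0 : K), ((1 / (((0 : ℕ) : ℝ) + 1) : ℝ) : K))) =
          ((r' : K) • ((0 : K), ((1 / (((0 : ℕ) : ℝ) + 1) : ℝ) : K))) := h1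
      have h3 := congrArg Prod.snd h2
      simpa using h3
    have h1 : (Set.univ : Set ℝ).Countable := by
      have := (Set.countable_of_injective_of_countable_image (s := Set.univ)
        (fun x _ y _ h => hinj h) (by rwa [Set.image_univ]))
      exact this
    exact Cardinal.not_countable_real h1
  · rintro ε hε _ ⟨r, rfl⟩ _ ⟨r', rfl⟩ hne
    have hr : r ≠ r' := by rintro rfl; exact hne rfl
    have hd : 0 < |r - r'| := abs_pos.2 (sub_ne_zero.2 hr)
    simp only [dist_smul]
    constructor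
    · apply dens_zero
      intro δ hδ
      rw [frequently_atTop]
      intro N
      obtain ⟨k, hk⟩ := exists_nat_gt (max (max (N + 1) (Real.exp 1 / |r - r'|)) (2 / δ))
      have hk1 : N + 1 < k := ((le_max_left _ _).trans (le_max_left _ _)).trans_lt hk
      have hk2 : Real.exp 1 / |r - r'| < k := ((le_max_right _ _).trans (le_max_left _ _)).trans_lt hk
      have hk3 : 2 / δ < k := (le_max_right _ _).trans_lt hk
      have hLk := L_ge_k k
      have hL16 := L_ge k
      refine ⟨L k - 1, by linarith, ?_⟩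
      have hsub : {t | 0 ≤ t ∧ |r - r'| * ‖T K t (z K)‖ < 1} ∩ Set.Icc 0 (1 + (L k - 1)) ⊆
          Set.Icc 0 (L k / ((k : ℝ) + 1)) := by
        rintro t ⟨⟨h1, h2⟩, h3⟩
        refine ⟨h1, ?_⟩
        by_contra h4
        push Not at h4
        have h5 := z_large (K := K) h4.le (by linarith [h3.2])
        rw [div_lt_iff₀ hd] at hk2
        have h6 : Real.exp 1 * Real.exp (-1) = 1 := by rw [← Real.exp_add]; simp
        have h7 : 0 < Real.exp (-1) := Real.exp_pos _
        have h8 : 1 < |r - r'| * (((k : ℝ) + 1) * Real.exp (-1)) := by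
          have : Real.exp 1 * Real.exp (-1) < (k * |r - r'|) * Real.exp (-1) :=
            mul_lt_mul_of_pos_right hk2 h7
          nlinarith [mul_pos hd h7]
        have h9 := mul_le_mul_of_nonneg_left h5 hd.le
        linarith
      refine (measure_mono hsub).trans ?_
      rw [Real.volume_Icc, sub_zero]
      apply ENNReal.ofReal_le_ofReal
      rw [div_lt_iff₀ hδ] at hk3
      rw [div_le_iff₀ (by positivity)]
      have : (2 : ℝ) ≤ δ * ((k : ℝ) + 1) := by nlinarith
      nlinarith
    · apply dens_zero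
      intro δ hδ
      rw [frequently_atTop]
      intro N
      obtain ⟨m, hm⟩ := T_small (z K) (div_pos hε hd)
      have e1 := L_tendsto.eventually_ge_atTop (max (max (N + 1) (max m 1)) (2 / δ))
      obtain ⟨k, hk⟩ := e1.exists
      have hk1 : N + 1 ≤ L k := ((le_max_left _ _).trans (le_max_left _ _)).trans hk
      have hk2 : max m 1 ≤ L k := ((le_max_right _ _).trans (le_max_left _ _)).trans hk
      have hk3 : 2 / δ ≤ L k := (le_max_right _ _).trans hk
      have hmL : m ≤ L k := (le_max_left _ _).trans hk2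
      have hL16 := L_ge k
      have hL2 : L k ≤ L k ^ 2 := by nlinarith
      have hL3 : L k ≤ L k ^ 3 := by nlinarith [sq_nonneg (L k)]
      refine ⟨L k ^ 3 - 1, by linarith, ?_⟩
      have hsub : {t | 0 ≤ t ∧ ε ≤ |r - r'| * ‖T K t (z K)‖} ∩ Set.Icc 0 (1 + (L k ^ 3 - 1)) ⊆
          Set.Icc 0 (L k ^ 2) := by
        rintro t ⟨⟨h1, h2⟩, h3⟩
        refine ⟨h1, ?_⟩
        by_contra h4
        push Not at h4
        have h5 := hm t (by linarith) k h4.le (by linarith [h3.2])
        rw [lt_div_iff₀ hd] at h5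
        linarith
      refine (measure_mono hsub).trans ?_
      rw [Real.volume_Icc, sub_zero]
      apply ENNReal.ofReal_le_ofReal
      rw [div_le_iff₀ hδ] at hk3
      have h7 : (1 : ℝ) ≤ L k ^ 3 / 2 := by nlinarith [sq_nonneg (L k)]
      calc L k ^ 2 = L k ^ 2 * 1 := by ring
        _ ≤ L k ^ 2 * (L k * δ / 2) := by
          apply mul_le_mul_of_nonneg_left _ (by positivity)
          linarith
        _ = δ * (L k ^ 3 / 2) := by ring
        _ ≤ δ * (L k ^ 3 - 1) := by
          apply mul_le_mul_of_nonneg_left _ hδ.le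
          linarith

lemma not_chaotic : ¬ Chaotic (T K) (fun t => (1 + t) ^ 5) := by
  rintro ⟨S, hS, σ, hσ, h⟩
  obtain ⟨x, hx, y, hy, hxy⟩ : S.Nontrivial := by
    rw [← Set.not_subsingleton_iff]
    intro hsub
    exact hS hsub.countable
  have h0 := (h 1 one_pos x hx y hy hxy).1
  obtain ⟨m, hm⟩ := T_small (x - y) hσ
  have h1 : (1 : ℝ≥0∞) ≤ lowerDensity (fun t => (1 + t) ^ 5)
      {t | 0 ≤ t ∧ dist (T K t x) (T K t y) < σ} := by
    unfold lowerDensity
    apply le_liminf_of_le
    · isBoundedDefault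
    · obtain ⟨k0, hk0⟩ := (L_tendsto.eventually_ge_atTop m).exists_forall_of_atTop
      filter_upwards [eventually_ge_atTop (L k0 ^ 3), eventually_gt_atTop 0] with t ht ht0
      have hex : ∃ k, (1 + t) ^ 5 < L (k + 1) ^ 3 := by
        obtain ⟨k, hk⟩ := (L_tendsto.eventually_gt_atTop ((1 + t) ^ 5)).exists
        refine ⟨k, hk.trans_le ?_⟩
        have e1 := L_mono (Nat.le_succ k)
        have e2 := L_ge (k + 1)
        have e3 : L (k + 1) ≤ L (k + 1) ^ 3 := by nlinarith [sq_nonneg (L (k + 1))]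
        exact le_trans e1 e3
      classical
      set k := Nat.find hex with hk
      have hk1 : (1 + t) ^ 5 < L (k + 1) ^ 3 := Nat.find_spec hex
      have ht5 : 1 + t ≤ (1 + t) ^ 5 := by
        have : (1 : ℝ) ≤ (1 + t) ^ 4 := one_le_pow₀ (by linarith)
        nlinarith
      have hk2 : k0 ≤ k := by
        by_contra hlt
        push Not at hlt
        have e1 : L (k + 1) ≤ L k0 := L_mono hlt
        have e2 : L (k + 1) ^ 3 ≤ L k0 ^ 3 := pow_le_pow_left₀ (L_pos _).le e1 3
        linarith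
      have hk3 : L k ^ 3 ≤ (1 + t) ^ 5 := by
        rcases Nat.eq_zero_or_pos k with hz | hz
        · have : k0 = 0 := by omega
          rw [this] at ht
          rw [hz]
          linarith
        · have := Nat.find_min hex (m := k - 1) (by omega)
          push Not at this
          have e : k - 1 + 1 = k := by omega
          rwa [e] at this
      have hL16 := L_ge k
      have hLm := hk0 k hk2
      have hL2 : L k ≤ L k ^ 2 := by nlinarith
      have hsub : Set.Icc (L k ^ 2) (L k ^ 3) ⊆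
          {t | 0 ≤ t ∧ dist (T K t x) (T K t y) < σ} ∩ Set.Icc 0 ((1 + t) ^ 5) := by
        rintro u ⟨hu1, hu2⟩
        have hu0 : 0 ≤ u := by linarith
        refine ⟨⟨hu0, ?_⟩, hu0, by linarith⟩
        rw [dist_eq_norm, ← map_sub]
        exact hm u (by linarith) k hu1 hu2
      have hvol : ENNReal.ofReal t ≤ volume ({t | 0 ≤ t ∧ dist (T K t x) (T K t y) < σ} ∩
          Set.Icc 0 ((1 + t) ^ 5)) := by
        refine le_trans ?_ (measure_mono hsub)
        rw [Real.volume_Icc]
        apply ENNReal.ofReal_le_ofReal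
        by_contra hlt
        push Not at hlt
        have e1 : L k ^ 3 / 2 < t := by nlinarith [sq_nonneg (L k)]
        have e2 : (L k ^ 3 / 2) ^ 5 ≤ (1 + t) ^ 5 :=
          pow_le_pow_left₀ (by positivity) (by linarith) 5
        rw [L_succ] at hk1
        have e3 : (L k ^ 3 / 2) ^ 5 = L k ^ 12 * (L k ^ 3 / 32) := by ring
        have e4 : (L k ^ 4) ^ 3 = L k ^ 12 := by ring
        rw [e4] at hk1
        rw [e3] at e2
        have e5 : (1 : ℝ) ≤ L k ^ 3 / 32 := by nlinarith [sq_nonneg (L k)]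
        have e6 : 0 < L k ^ 12 := by positivity
        nlinarith
      rw [ENNReal.le_div_iff_mul_le (Or.inl (by simpa using ht0)) (Or.inl ENNReal.ofReal_ne_top),
        one_mul]
      exact hvol
  rw [h0] at h1
  exact absurd h1 (by simp)

/-- **Negative answer.**  On the Banach space `c_0(ℕ, K × K)` (`K` real or complex) there is a
strongly continuous semigroup which has a dense linear subspace of vectors with null orbits and is
distributionally chaotic (`f(t) = 1 + t`), but is not `f`-distributionally chaotic for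
`f(t) = (1 + t)^5`, a member of the class `F`. -/
theorem result (K : Type) [RCLike K] :
    ∃ T : ℝ → C₀(ℕ, K × K) →L[K] C₀(ℕ, K × K),
      IsSemigroup T ∧ HasDenseNullOrbits T ∧ Chaotic T (fun t => 1 + t) ∧
      InF (fun t => (1 + t) ^ 5) ∧ ¬ Chaotic T (fun t => (1 + t) ^ 5) := by
  refine ⟨T K, ⟨T_zero, fun s t _ _ => T_add s t, fun x => (T_continuous x).continuousOn⟩,
    ⟨X0 K, X0_dense, X0_null⟩, chaotic_one, ⟨?_, ?_, 1, one_pos, ?_⟩, not_chaotic⟩
  · intro s hs t ht hst
    have : (0 : ℝ) ≤ s := hs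
    simp only
    gcongr
  · intro t ht
    exact one_le_pow₀ (by linarith)
  · filter_upwards [eventually_gt_atTop 0] with t ht
    rw [le_div_iff₀ ht, one_mul]
    have : (1 : ℝ) ≤ (1 + t) ^ 4 := one_le_pow₀ (by linarith)
    nlinarith

end

end Pool.Agent.Results.MP_8cea72_an.FifthPower
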